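import Mathlib
import Pool.Agent.Helper43.SF.Stmts

set_option autoImplicit false

namespace Pool.Agent.Helper43.SF

open Finset Polynomial
open Pool.Agent.Helper43.OD (h)

/-- coefficient of N^s h(2N,s) -/
noncomputable def ind2X (a b : ℕ → ℝ) (s : ℕ) : ℝ :=
  if Even s then (a s + b s) / 2 else (b s - a s) / 2

/-- coefficient of N^s h(N,s) -/
noncomputable def ind2Y (a b α β : ℕ → ℝ) (s : ℕ) : ℝ :=
  if Even s then - b s else if s = 1 then a s - b s + β s else - b s - α s + β s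

/-- coefficient of N^s -/
noncomputable def ind2R (a α : ℕ → ℝ) (s : ℕ) : ℝ :=
  if Odd s ∧ 3 ≤ s then (a s + α s) * zt s else 0

/-- contribution to the constant term -/
noncomputable def ind2K (b β : ℕ → ℝ) (s : ℕ) : ℝ :=
  (1 / 2) * b s * (1 - (1 / 2) ^ s) - (if Odd s then β s else 0)

lemma ind2_h_pred (N s : ℕ) (hN : 1 ≤ N) : h N s = h (N - 1) s + 1 / (N : ℝ) ^ s := by
  obtain ⟨M, rfl⟩ : ∃ M, N = M + 1 := ⟨N - 1, by omega⟩
  have : M + 1 - 1 = M := by omega
  rw [this]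
  unfold Pool.Agent.Helper43.OD.h
  rw [Finset.sum_range_succ]

lemma ind2_term (a b α β : ℕ → ℝ) (N s : ℕ) (hN : 1 ≤ N) (hs : 1 ≤ s) :
    (a s * F s N - b s * G s N)
      + (if Odd s ∧ 3 ≤ s then α s * ((N : ℝ) ^ s * (zt s - h N s)) else 0)
      + (if Odd s then β s * ((N : ℝ) ^ s * h (N - 1) s) else 0)
    = (N : ℝ) ^ s * (ind2X a b s * h (2 * N) s + ind2Y a b α β s * h N s)
      + ind2R a α s * (N : ℝ) ^ s + ind2K b β s := by
  have hN0 : (N : ℝ) ≠ 0 := by
    have : (0 : ℝ) < N := by exact_mod_cast hN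
    exact this.ne'
  have hp : (N : ℝ) ^ s * h (N - 1) s = (N : ℝ) ^ s * h N s - 1 := by
    rw [ind2_h_pred N s hN]
    field_simp
    ring
  rw [hp]
  by_cases h1 : s = 1
  · subst h1
    have o1 : Odd 1 := odd_one
    have e1 : ¬ Even 1 := by decide
    have t1 : ¬ (Odd 1 ∧ 3 ≤ 1) := by omega
    simp only [F, G, ind2X, ind2Y, ind2R, ind2K, if_pos o1, if_neg e1, if_neg t1, if_true, pow_one]
    ring
  · by_cases he : Even s
    · have o1 : ¬ Odd s := Nat.not_odd_iff_even.2 he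
      have t1 : ¬ (Odd s ∧ 3 ≤ s) := fun hh => o1 hh.1
      simp only [F, G, ind2X, ind2Y, ind2R, ind2K, if_neg o1, if_pos he, if_neg t1, if_neg h1]
      ring
    · have o1 : Odd s := Nat.not_even_iff_odd.1 he
      have s3 : 3 ≤ s := by
        obtain ⟨c, hc⟩ := o1
        omega
      have t1 : (Odd s ∧ 3 ≤ s) := ⟨o1, s3⟩
      simp only [F, G, ind2X, ind2Y, ind2R, ind2K, if_pos o1, if_neg he, if_pos t1, if_neg h1]
      ring

lemma ind2_zt_pos (s : ℕ) (hs : 2 ≤ s) : 0 < zt s := by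
  unfold zt
  have hsum : Summable (fun n : ℕ => (1 : ℝ) / ((n + 1 : ℕ) : ℝ) ^ s) := by
    have h0 : Summable (fun n : ℕ => (1 : ℝ) / (n : ℝ) ^ s) :=
      Real.summable_one_div_nat_pow.2 (by omega)
    exact (summable_nat_add_iff 1).2 h0
  refine hsum.tsum_pos (fun n => by positivity) 0 (by norm_num)

lemma ind2_filter (f : ℕ → ℝ) (d : ℕ) :
    ∑ s ∈ (Finset.Icc 1 d).filter Odd, f s = ∑ s ∈ Finset.Icc 1 d, (if Odd s then f s else 0) :=
  Finset.sum_filter _ _

lemma ind2_filter3 (f : ℕ → ℝ) (d : ℕ) :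
    ∑ s ∈ (Finset.Icc 3 d).filter Odd, f s
      = ∑ s ∈ Finset.Icc 1 d, (if Odd s ∧ 3 ≤ s then f s else 0) := by
  rw [← Finset.sum_filter]
  refine Finset.sum_congr ?_ (fun _ _ => rfl)
  ext s
  simp only [Finset.mem_filter, Finset.mem_Icc]
  constructor
  · rintro ⟨⟨h1, h2⟩, h3⟩
    exact ⟨⟨by omega, h2⟩, h3, h1⟩
  · rintro ⟨⟨h1, h2⟩, h3, h4⟩
    exact ⟨⟨h4, h2⟩, h3⟩

theorem st_IND2 (hI : ST_IND1) : ST_IND2 := by
  intro d a b α β q hyp
  set R : ℝ[X] := (∑ s ∈ Finset.Icc 1 d, Polynomial.monomial s (ind2R a α s))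
    + Polynomial.C ((∑ s ∈ Finset.Icc 1 d, ind2K b β s) - q) with hR
  have key := hI R d (ind2X a b) (ind2Y a b α β) (by
    intro N hN
    have h1 := hyp N hN
    rw [ind2_filter3 (fun s => α s * ((N : ℝ) ^ s * (zt s - h N s))) d,
      ind2_filter (fun s => β s * ((N : ℝ) ^ s * h (N - 1) s)) d,
      ← Finset.sum_add_distrib, ← Finset.sum_add_distrib] at h1
    have h2 : ∑ s ∈ Finset.Icc 1 d, ((a s * F s N - b s * G s N)
      + (if Odd s ∧ 3 ≤ s then α s * ((N : ℝ) ^ s * (zt s - h N s)) else 0)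
      + (if Odd s then β s * ((N : ℝ) ^ s * h (N - 1) s) else 0)) =
      ∑ s ∈ Finset.Icc 1 d, ((N : ℝ) ^ s * (ind2X a b s * h (2 * N) s + ind2Y a b α β s * h N s)
      + ind2R a α s * (N : ℝ) ^ s + ind2K b β s) :=
      Finset.sum_congr rfl (fun s hs => ind2_term a b α β N s hN (Finset.mem_Icc.1 hs).1)
    rw [h2, Finset.sum_add_distrib, Finset.sum_add_distrib] at h1
    rw [hR, Polynomial.eval_add, Polynomial.eval_finset_sum, Polynomial.eval_C]
    simp only [Polynomial.eval_monomial]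
    linarith)
  obtain ⟨hxy, hR0⟩ := key
  -- the coefficients of R
  have hcoef : ∀ t, R.coeff t = (∑ s ∈ Finset.Icc 1 d, if s = t then ind2R a α s else 0)
      + (if t = 0 then (∑ s ∈ Finset.Icc 1 d, ind2K b β s) - q else 0) := by
    intro t
    rw [hR, Polynomial.coeff_add, Polynomial.finset_sum_coeff, Polynomial.coeff_C]
    simp only [Polynomial.coeff_monomial]
  have hRs : ∀ s ∈ Finset.Icc 1 d, ind2R a α s = 0 := by
    intro s hs
    have h1 := hcoef s
    rw [hR0, Polynomial.coeff_zero] at h1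
    have hs0 : s ≠ 0 := by
      have := (Finset.mem_Icc.1 hs).1
      omega
    rw [Finset.sum_ite_eq' (Finset.Icc 1 d) s, if_pos hs, if_neg hs0] at h1
    linarith
  have hconst : (∑ s ∈ Finset.Icc 1 d, ind2K b β s) = q := by
    have h1 := hcoef 0
    rw [hR0, Polynomial.coeff_zero, if_pos rfl] at h1
    have h2 : ∑ s ∈ Finset.Icc 1 d, (if s = 0 then ind2R a α s else 0) = 0 := by
      apply Finset.sum_eq_zero
      intro s hs
      have := (Finset.mem_Icc.1 hs).1
      rw [if_neg (by omega)]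
    rw [h2] at h1
    linarith
  have hodd : ∀ s ∈ Finset.Icc 1 d, Odd s → b s = a s ∧ β s = 0 ∧ (3 ≤ s → α s = - a s) := by
    intro s hs ho
    obtain ⟨h1, h2⟩ := hxy s hs
    have he : ¬ Even s := Nat.not_even_iff_odd.2 ho
    rw [ind2X, if_neg he] at h1
    have hba : b s = a s := by linarith
    have hα : 3 ≤ s → α s = - a s := by
      intro h3
      have h4 := hRs s hs
      rw [ind2R, if_pos ⟨ho, h3⟩] at h4
      rcases mul_eq_zero.1 h4 with h5 | h5
      · linarith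
      · exact absurd h5 (ind2_zt_pos s (by omega)).ne'
    refine ⟨hba, ?_, hα⟩
    rw [ind2Y, if_neg he] at h2
    by_cases h1' : s = 1
    · rw [if_pos h1'] at h2
      linarith
    · rw [if_neg h1'] at h2
      have h3 : 3 ≤ s := by
        obtain ⟨c, hc⟩ := ho
        omega
      have := hα h3
      linarith
  have heven : ∀ s ∈ Finset.Icc 1 d, Even s → a s = 0 ∧ b s = 0 := by
    intro s hs he
    obtain ⟨h1, h2⟩ := hxy s hs
    rw [ind2X, if_pos he] at h1
    rw [ind2Y, if_pos he] at h2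
    constructor <;> linarith
  refine ⟨fun s hs he => (heven s hs he).1, ?_, ?_, ?_, ?_⟩
  · intro s hs
    rcases Nat.even_or_odd s with he | ho
    · rw [(heven s hs he).1, (heven s hs he).2]
    · exact (hodd s hs ho).1
  · intro s hs
    obtain ⟨h1, h2⟩ := Finset.mem_filter.1 hs
    obtain ⟨h3, h4⟩ := Finset.mem_Icc.1 h1
    exact (hodd s (Finset.mem_Icc.2 ⟨by omega, h4⟩) h2).2.2 h3
  · intro s hs
    obtain ⟨h1, h2⟩ := Finset.mem_filter.1 hs
    exact (hodd s h1 h2).2.1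
  · rw [← hconst]
    refine Finset.sum_congr rfl (fun s hs => ?_)
    unfold ind2K
    rcases Nat.even_or_odd s with he | ho
    · rw [(heven s hs he).1, (heven s hs he).2, if_neg (Nat.not_odd_iff_even.2 he)]
      ring
    · rw [(hodd s hs ho).1, if_pos ho, (hodd s hs ho).2.1]
      ring

end Pool.Agent.Helper43.SF
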